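import Pool.Agent.Lib.MP_6bc78b_nt.MS.GL.Iface

/-! Project MS, Part GL, module EXD: the Poisson sum against primes (from EXG and PFR). -/

set_option autoImplicit false

open Complex Filter Topology MeasureTheory ArithmeticFunction

namespace Pool.Agent.Lib.MP_6bc78b_nt.MS.GL.H22

open Pool.Agent.Lib.MP_6bc78b_nt Pool.Agent.Lib.MP_6bc78b_nt.LL Pool.Agent.Lib.MP_6bc78b_nt.MS
  Pool.Agent.Lib.MP_6bc78b_nt.MS.P1 Pool.Agent.Lib.MP_6bc78b_nt.MS.QZ
  Pool.Agent.Lib.MP_6bc78b_nt.MS.GL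

theorem hasDerivAt_phd (δ l ξ : ℝ) :
    HasDerivAt (phd δ l) (-δ * Real.cosh (δ * (l - ξ)) / Real.cosh (δ * l)) ξ := by
  have h1 : HasDerivAt (fun x : ℝ => δ * (l - x)) (-δ) ξ := by
    have := ((hasDerivAt_id ξ).const_sub l).const_mul δ
    simpa using this
  have h2 := (h1.sinh).div_const (Real.cosh (δ * l))
  have e : (fun x : ℝ => Real.sinh (δ * (l - x)) / Real.cosh (δ * l)) = phd δ l := by
    funext x
    rfl
  rw [e] at h2
  refine h2.congr_deriv ?_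
  ring

theorem deriv_phd (δ l : ℝ) :
    deriv (phd δ l) = fun ξ => -δ * Real.cosh (δ * (l - ξ)) / Real.cosh (δ * l) :=
  funext fun ξ => (hasDerivAt_phd δ l ξ).deriv

theorem deriv2_phd (δ l : ℝ) :
    deriv (deriv (phd δ l)) = fun ξ => δ ^ 2 * phd δ l ξ := by
  rw [deriv_phd]
  funext ξ
  have h1 : HasDerivAt (fun x : ℝ => δ * (l - x)) (-δ) ξ := by
    have := ((hasDerivAt_id ξ).const_sub l).const_mul δ
    simpa using this
  have h2 := ((h1.cosh).const_mul (-δ)).div_const (Real.cosh (δ * l))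
  rw [h2.deriv]
  unfold phd
  ring

theorem abs_sinh_le_cosh (x : ℝ) : |Real.sinh x| ≤ Real.cosh x := by
  have h := Real.cosh_sq x
  have h1 := Real.cosh_pos x
  nlinarith [sq_abs (Real.sinh x), abs_nonneg (Real.sinh x)]

theorem isPhi_phd {δ l : ℝ} (hδ : 0 < δ) (hδ1 : δ ≤ 3 / 4) (hl : 0 < l) :
    IsPhi l 1 (phd δ l) := by
  refine ⟨?_, ?_, ?_⟩
  · unfold phd
    fun_prop
  · simp [phd]
  · intro ξ h0 h1
    have hc : 0 < Real.cosh (δ * l) := Real.cosh_pos _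
    have hle : Real.cosh (δ * (l - ξ)) ≤ Real.cosh (δ * l) := by
      rw [Real.cosh_le_cosh, abs_of_nonneg (by nlinarith), abs_of_nonneg (by positivity)]
      nlinarith
    have hs : |phd δ l ξ| ≤ 1 := by
      unfold phd
      rw [abs_div, abs_of_pos hc, div_le_one hc]
      exact (abs_sinh_le_cosh _).trans hle
    refine ⟨hs, ?_, ?_⟩
    · rw [deriv_phd]
      simp only
      rw [abs_div, abs_of_pos hc, div_le_one hc, abs_mul, abs_neg, abs_of_pos hδ,
        abs_of_pos (Real.cosh_pos _)]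
      nlinarith [Real.cosh_pos (δ * (l - ξ))]
    · rw [deriv2_phd]
      simp only
      rw [abs_mul, abs_of_nonneg (by positivity)]
      nlinarith [abs_nonneg (phd δ l ξ)]

theorem integral_phd {δ l : ℝ} (hδ : 0 < δ) (u : ℝ) :
    ∫ ξ in (0 : ℝ)..l, phd δ l ξ * Real.cos (ξ * u) =
      δ / (δ ^ 2 + u ^ 2) * (1 - Real.cos (l * u) / Real.cosh (δ * l)) := by
  have hc : Real.cosh (δ * l) ≠ 0 := (Real.cosh_pos _).ne'
  have hd : δ ^ 2 + u ^ 2 ≠ 0 := by positivity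
  have key : ∀ x : ℝ, HasDerivAt (fun ξ : ℝ =>
      (u * (Real.sinh (δ * (l - ξ)) * Real.sin (ξ * u)) -
        δ * (Real.cosh (δ * (l - ξ)) * Real.cos (ξ * u))) / (δ ^ 2 + u ^ 2) /
          Real.cosh (δ * l)) (phd δ l x * Real.cos (x * u)) x := by
    intro x
    have h1 : HasDerivAt (fun x : ℝ => δ * (l - x)) (-δ) x := by
      have := ((hasDerivAt_id x).const_sub l).const_mul δ
      simpa using this
    have h2 : HasDerivAt (fun x : ℝ => x * u) u x := by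
      have := (hasDerivAt_id x).mul_const u
      simpa using this
    have h3 := ((((h1.sinh).mul h2.sin).const_mul u).sub
      (((h1.cosh).mul h2.cos).const_mul δ)).div_const (δ ^ 2 + u ^ 2)
    have h4 := h3.div_const (Real.cosh (δ * l))
    refine h4.congr_deriv ?_
    unfold phd
    field_simp
    ring
  have hcont : Continuous (fun x : ℝ => phd δ l x * Real.cos (x * u)) := by
    unfold phd
    fun_prop
  rw [intervalIntegral.integral_eq_sub_of_hasDerivAt (fun x _ => key x)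
    (hcont.intervalIntegrable _ _)]
  simp only [sub_self, mul_zero, Real.sinh_zero, zero_mul, Real.cosh_zero, one_mul, sub_zero,
    Real.sin_zero, Real.cos_zero, mul_one]
  field_simp
  ring

/-- EXD. -/
theorem exd (h1 : ExgStatement) (h2 : PfrStatement) : ExdStatement := by
  intro δ0 h0 h01
  obtain ⟨C, hC, hex⟩ := h1 δ0 h0 h01
  refine ⟨C, hC, ?_⟩
  intro T lam y δ hT hlog hlam hy1 hy2 hδ hδ1
  set l : ℝ := lam * Real.log T with hl
  have hl0 : 0 < l := by linarith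
  obtain ⟨hsum, hmain⟩ := hex T lam 1 y (phd δ l) hT hlog hlam hy1 hy2
    (isPhi_phd hδ hδ1 hl0)
  obtain ⟨hs, -, -⟩ := h2 y δ hδ (by linarith)
  have hc : 0 < Real.cosh (δ * l) := Real.cosh_pos _
  have hterm : ∀ γ : ℝ, (mz γ : ℝ) * (∫ ξ in (0 : ℝ)..l, phd δ l ξ * Real.cos (ξ * (y - γ))) =
      (mz γ : ℝ) * (δ / (δ ^ 2 + (y - γ) ^ 2)) -
        (mz γ : ℝ) * (δ / (δ ^ 2 + (y - γ) ^ 2)) * Real.cos (l * (y - γ)) /
          Real.cosh (δ * l) := by
    intro γ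
    rw [integral_phd hδ]
    ring
  have hnn : ∀ γ : ℝ, 0 ≤ (mz γ : ℝ) * (δ / (δ ^ 2 + (y - γ) ^ 2)) := by
    intro γ
    positivity
  have hb : ∀ γ : ℝ, ‖(mz γ : ℝ) * (δ / (δ ^ 2 + (y - γ) ^ 2)) * Real.cos (l * (y - γ)) /
      Real.cosh (δ * l)‖ ≤ (mz γ : ℝ) * (δ / (δ ^ 2 + (y - γ) ^ 2)) / Real.cosh (δ * l) := by
    intro γ
    rw [norm_div, Real.norm_eq_abs (Real.cosh (δ * l)), abs_of_pos hc]
    refine div_le_div_of_nonneg_right ?_ hc.le
    rw [norm_mul, Real.norm_eq_abs, Real.norm_eq_abs, abs_of_nonneg (hnn γ)]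
    exact mul_le_of_le_one_right (hnn γ) (Real.abs_cos_le_one _)
  have hs2 : Summable (fun γ : ℝ => (mz γ : ℝ) * (δ / (δ ^ 2 + (y - γ) ^ 2)) *
      Real.cos (l * (y - γ)) / Real.cosh (δ * l)) :=
    Summable.of_norm_bounded (hs.div_const _) hb
  have hdiff : (∑' γ : ℝ, (mz γ : ℝ) *
      (∫ ξ in (0 : ℝ)..l, phd δ l ξ * Real.cos (ξ * (y - γ)))) = PD δ y -
      ∑' γ : ℝ, (mz γ : ℝ) * (δ / (δ ^ 2 + (y - γ) ^ 2)) * Real.cos (l * (y - γ)) /
        Real.cosh (δ * l) := by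
    rw [tsum_congr hterm, hs.tsum_sub hs2]
    rfl
  have hE : |∑' γ : ℝ, (mz γ : ℝ) * (δ / (δ ^ 2 + (y - γ) ^ 2)) * Real.cos (l * (y - γ)) /
        Real.cosh (δ * l)| ≤ PD δ y / Real.cosh (δ * l) := by
    rw [← Real.norm_eq_abs]
    have h3 := tsum_of_norm_bounded (hs.div_const (Real.cosh (δ * l))).hasSum hb
    have h4 : (∑' b : ℝ, (mz b : ℝ) * (δ / (δ ^ 2 + (y - b) ^ 2)) / Real.cosh (δ * l)) =
        PD δ y / Real.cosh (δ * l) := tsum_div_const
    rw [h4] at h3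
    exact h3
  have hphi0 : phd δ l 0 = Real.tanh (δ * l) := by
    unfold phd
    rw [sub_zero, Real.tanh_eq_sinh_div_cosh]
  rw [hdiff, hphi0, mul_one] at hmain
  set A := PD δ y
  set E := ∑' γ : ℝ, (mz γ : ℝ) * (δ / (δ ^ 2 + (y - γ) ^ 2)) * Real.cos (l * (y - γ)) /
        Real.cosh (δ * l)
  have e : A - 1 / 2 * Real.log y * Real.tanh (δ * l) + (QP (phd δ l) lam T y).re =
      (A - E - 1 / 2 * Real.log y * Real.tanh (δ * l) + (QP (phd δ l) lam T y).re) + E := by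
    ring
  rw [e]
  exact (abs_add_le _ _).trans (add_le_add hmain hE)

end Pool.Agent.Lib.MP_6bc78b_nt.MS.GL.H22
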